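import Pool.Agent.Helper38.Curl.Rep

open MeasureTheory Set Filter Topology Metric
open scoped ContDiff RealInnerProductSpace
open Pool.Agent.Helper38.Curl

namespace Pool.Agent.Helper37.Curl

theorem affine_le {D O : Set E} (hO : MeasurableSet O) (hD : MeasurableSet D) {φ : E → ℝ}
    (h0 : ∀ x, 0 ≤ φ x) (hi : IntegrableOn φ O) {s : ℝ} (hs : 0 < s) (v : E)
    (h : ∀ y ∈ D, s • y + v ∈ O) : ∫ y in D, φ (s • y + v) ≤ (s ^ 3)⁻¹ * ∫ x in O, φ x := by
  have h1 : Integrable (O.indicator φ) := (integrable_indicator_iff hO).2 hi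
  have h2 : ∫ y, (O.indicator φ) (s • y + v) = (s ^ 3)⁻¹ * ∫ x in O, φ x := by
    have := Measure.integral_comp_smul (volume : Measure E) (fun y => O.indicator φ (y + v)) s
    rw [this, integral_add_right_eq_self (fun y => O.indicator φ y) v, integral_indicator hO]
    have h3 : Module.finrank ℝ E = 3 := by simp [E]
    rw [h3, abs_of_pos (by positivity), smul_eq_mul]
  rw [← h2, ← integral_indicator hD]
  refine integral_mono_of_nonneg (Eventually.of_forall fun y => ?_) ?_
    (Eventually.of_forall fun y => ?_)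
  · exact indicator_nonneg (fun x _ => h0 _) y
  · have h4 : Integrable (fun y => O.indicator φ (y + v)) := h1.comp_add_right v
    exact h4.comp_smul hs.ne'
  · by_cases hy : y ∈ D
    · simp [hy, h y hy]
    · simp only [hy, not_false_eq_true, indicator_of_notMem]
      exact indicator_nonneg (fun x _ => h0 _) _

theorem bdd_of_cont {K : Set E} (hKb : Bornology.IsBounded K) {f : E → ℝ} (hf : Continuous f) :
    ∃ M, ∀ x ∈ K, ‖f x‖ ≤ M := by
  have hc : IsCompact (closure K) := hKb.isCompact_closure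
  obtain ⟨M, hM⟩ := hc.exists_bound_of_continuousOn hf.continuousOn
  exact ⟨M, fun x hx => hM x (subset_closure hx)⟩

theorem integrableOn_of_cont {K : Set E} (hKb : Bornology.IsBounded K) {f : E → ℝ}
    (hf : Continuous f) : IntegrableOn f K := by
  have hc : IsCompact (closure K) := hKb.isCompact_closure
  exact (hf.continuousOn.integrableOn_compact hc).mono_set subset_closure

theorem seg_bound {K : Set E} (hK : Convex ℝ K) (hKm : MeasurableSet K)
    (hKb : Bornology.IsBounded K) {f : E → ℝ} (hf : Continuous f) (h0 : ∀ x, 0 ≤ f x) {t : ℝ}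
    (ht : t ∈ Icc (0 : ℝ) 1) :
    ∫ y in K, ∫ y' in K, f (y' + t • (y - y')) ≤ 8 * volume.real K * ∫ x in K, f x := by
  have hKf : volume K < ⊤ := hKb.measure_lt_top
  have : IsFiniteMeasure (volume.restrict K) := ⟨by simpa using hKf⟩
  have hfi : IntegrableOn f K := integrableOn_of_cont hKb hf
  have hJ : 0 ≤ ∫ x in K, f x := integral_nonneg fun x => h0 x
  obtain ⟨M, hM⟩ := bdd_of_cont hKb hf
  have hin : ∀ y ∈ K, ∀ y' ∈ K, y' + t • (y - y') ∈ K := by
    intro y hy y' hy'
    have := hK hy' hy (sub_nonneg.2 ht.2) ht.1 (by ring)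
    convert this using 1
    rw [sub_smul, one_smul, smul_sub]; abel
  have hcont : Continuous fun p : E × E => f (p.2 + t • (p.1 - p.2)) := by fun_prop
  have hint : Integrable (fun p : E × E => f (p.2 + t • (p.1 - p.2)))
      ((volume.restrict K).prod (volume.restrict K)) := by
    refine Integrable.of_bound hcont.aestronglyMeasurable M ?_
    rw [Measure.prod_restrict]
    refine (ae_restrict_iff' (hKm.prod hKm)).2 (Eventually.of_forall fun p hp => ?_)
    exact hM _ (hin _ hp.1 _ hp.2)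
  rcases le_total (1 / 2) t with h | h
  · rw [integral_integral_swap hint]
    have hb : ∀ y' ∈ K, ∫ y in K, f (y' + t • (y - y')) ≤ 8 * ∫ x in K, f x := by
      intro y' hy'
      have ht0 : 0 < t := by linarith
      have h1 := affine_le hKm hKm h0 hfi ht0 (y' - t • y') (fun y hy => by
        have := hin y hy y' hy'
        convert this using 1
        rw [smul_sub]; abel)
      have h2 : (t ^ 3)⁻¹ ≤ 8 := by
        have : (1 / 8 : ℝ) ≤ t ^ 3 := by
          have : (1 / 2 : ℝ) ^ 3 ≤ t ^ 3 := pow_le_pow_left₀ (by norm_num) h 3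
          norm_num at this ⊢; exact this
        rw [inv_le_comm₀ (by positivity) (by norm_num)]
        linarith
      calc ∫ y in K, f (y' + t • (y - y')) = ∫ y in K, f (t • y + (y' - t • y')) := by
            congr 1; ext y; congr 1; rw [smul_sub]; abel
        _ ≤ _ := h1
        _ ≤ 8 * ∫ x in K, f x := by gcongr
    calc ∫ y' in K, ∫ y in K, f (y' + t • (y - y')) ≤ ∫ _y' in K, 8 * ∫ x in K, f x := by
          refine setIntegral_mono_on hint.integral_prod_right ?_ hKm hb
          exact integrable_const _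
      _ = 8 * volume.real K * ∫ x in K, f x := by
          rw [setIntegral_const, smul_eq_mul]; ring
  · have hb : ∀ y ∈ K, ∫ y' in K, f (y' + t • (y - y')) ≤ 8 * ∫ x in K, f x := by
      intro y hy
      have ht0 : 0 < 1 - t := by linarith
      have h1 := affine_le hKm hKm h0 hfi ht0 (t • y) (fun y' hy' => by
        have := hin y hy y' hy'
        convert this using 1
        rw [smul_sub, sub_smul, one_smul]; abel)
      have h2 : ((1 - t) ^ 3)⁻¹ ≤ 8 := by
        have : (1 / 8 : ℝ) ≤ (1 - t) ^ 3 := by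
          have : (1 / 2 : ℝ) ^ 3 ≤ (1 - t) ^ 3 :=
            pow_le_pow_left₀ (by norm_num) (by linarith) 3
          norm_num at this ⊢; exact this
        rw [inv_le_comm₀ (by positivity) (by norm_num)]
        linarith
      calc ∫ y' in K, f (y' + t • (y - y')) = ∫ y' in K, f ((1 - t) • y' + t • y) := by
            congr 1; ext y'; congr 1; rw [smul_sub, sub_smul, one_smul]; abel
        _ ≤ _ := h1
        _ ≤ 8 * ∫ x in K, f x := by gcongr
    calc ∫ y in K, ∫ y' in K, f (y' + t • (y - y')) ≤ ∫ _y in K, 8 * ∫ x in K, f x := by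
          refine setIntegral_mono_on hint.integral_prod_left ?_ hKm hb
          exact integrable_const _
      _ = 8 * volume.real K * ∫ x in K, f x := by
          rw [setIntegral_const, smul_eq_mul]; ring

theorem seg_le {K : Set E} (hK : Convex ℝ K) (hKm : MeasurableSet K)
    (hKb : Bornology.IsBounded K) {f : E → ℝ} (hf : Continuous f) (h0 : ∀ x, 0 ≤ f x) :
    ∫ y in K, ∫ y' in K, ∫ t in (0 : ℝ)..1, f (y' + t • (y - y'))
      ≤ 8 * volume.real K * ∫ x in K, f x := by
  have hKf : volume K < ⊤ := hKb.measure_lt_top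
  have : IsFiniteMeasure (volume.restrict K) := ⟨by simpa using hKf⟩
  obtain ⟨M, hM⟩ := bdd_of_cont hKb hf
  have hin : ∀ y ∈ K, ∀ y' ∈ K, ∀ t ∈ Icc (0 : ℝ) 1, y' + t • (y - y') ∈ K := by
    intro y hy y' hy' t ht
    have := hK hy' hy (sub_nonneg.2 ht.2) ht.1 (by ring)
    convert this using 1
    rw [sub_smul, one_smul, smul_sub]; abel
  set μ := volume.restrict K with hμ
  set τ : Measure ℝ := volume.restrict (Ioc (0 : ℝ) 1) with hτ
  have hcont : Continuous fun p : (ℝ × E) × E => f (p.2 + p.1.1 • (p.1.2 - p.2)) := by fun_prop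
  have hint : Integrable (fun p : (ℝ × E) × E => f (p.2 + p.1.1 • (p.1.2 - p.2)))
      ((τ.prod μ).prod μ) := by
    refine Integrable.of_bound hcont.aestronglyMeasurable M ?_
    rw [hμ, hτ, Measure.prod_restrict, Measure.prod_restrict]
    refine (ae_restrict_iff' ((measurableSet_Ioc.prod hKm).prod hKm)).2
      (Eventually.of_forall fun p hp => ?_)
    exact hM _ (hin _ hp.1.2 _ hp.2 _ ⟨hp.1.1.1.le, hp.1.1.2⟩)
  have h1 : Integrable (fun p : ℝ × E => ∫ y', f (y' + p.1 • (p.2 - y')) ∂μ) (τ.prod μ) :=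
    hint.integral_prod_left
  have hstep : ∀ y ∈ K, ∫ y' in K, ∫ t in (0 : ℝ)..1, f (y' + t • (y - y'))
      = ∫ t, ∫ y', f (y' + t • (y - y')) ∂μ ∂τ := by
    intro y hy
    have hcy : Continuous fun p : E × ℝ => f (p.1 + p.2 • (y - p.1)) := by fun_prop
    have hiy : Integrable (fun p : E × ℝ => f (p.1 + p.2 • (y - p.1))) (μ.prod τ) := by
      refine Integrable.of_bound hcy.aestronglyMeasurable M ?_
      rw [hμ, hτ, Measure.prod_restrict]
      refine (ae_restrict_iff' (hKm.prod measurableSet_Ioc)).2 (Eventually.of_forall fun p hp => ?_)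
      exact hM _ (hin _ hy _ hp.1 _ ⟨hp.2.1.le, hp.2.2⟩)
    rw [← integral_integral_swap hiy]
    congr 1; ext y'
    rw [intervalIntegral.integral_of_le zero_le_one]
  calc ∫ y in K, ∫ y' in K, ∫ t in (0 : ℝ)..1, f (y' + t • (y - y'))
      = ∫ y in K, ∫ t, ∫ y', f (y' + t • (y - y')) ∂μ ∂τ := setIntegral_congr_fun hKm hstep
    _ = ∫ t, ∫ y, ∫ y', f (y' + t • (y - y')) ∂μ ∂μ ∂τ := by
        rw [← integral_integral_swap h1]
    _ ≤ ∫ _t, (8 * volume.real K * ∫ x in K, f x) ∂τ := by
        refine setIntegral_mono_on ?_ (integrable_const _) measurableSet_Ioc ?_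
        · exact h1.integral_prod_left
        · intro t ht
          exact seg_bound hK hKm hKb hf h0 ⟨ht.1.le, ht.2⟩
    _ = 8 * volume.real K * ∫ x in K, f x := by
        rw [hτ, setIntegral_const, smul_eq_mul]; simp

theorem ftc_le {H : E → ℝ} (hH : ContDiff ℝ 1 H) (x v : E) {T : ℝ} (hT : 0 ≤ T) :
    |H (x + T • v) - H x| ≤ ‖v‖ * ∫ t in (0 : ℝ)..T, ‖fderiv ℝ H (x + t • v)‖ := by
  have hc : Continuous (fderiv ℝ H) := hH.continuous_fderiv (by norm_num)
  have hd : ∀ t : ℝ, HasDerivAt (fun t : ℝ => H (x + t • v)) (fderiv ℝ H (x + t • v) v) t := by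
    intro t
    have h1 : HasFDerivAt H (fderiv ℝ H (x + t • v)) (x + t • v) :=
      (hH.differentiable (by norm_num) _).hasFDerivAt
    have h2 : HasDerivAt (fun t : ℝ => x + t • v) v t := by
      simpa using ((hasDerivAt_id t).smul_const v).const_add x
    exact h1.comp_hasDerivAt t h2
  have hc2 : Continuous fun t : ℝ => fderiv ℝ H (x + t • v) v := by
    have : Continuous fun t : ℝ => fderiv ℝ H (x + t • v) := hc.comp (by fun_prop)
    exact this.clm_apply continuous_const
  have h3 := intervalIntegral.integral_eq_sub_of_hasDerivAt (a := 0) (b := T)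
    (fun t _ => hd t) (hc2.intervalIntegrable _ _)
  simp only [zero_smul, add_zero] at h3
  rw [← h3, ← Real.norm_eq_abs]
  have hc3 : Continuous fun t : ℝ => ‖v‖ * ‖fderiv ℝ H (x + t • v)‖ :=
    continuous_const.mul (hc.comp (by fun_prop)).norm
  have h4 := intervalIntegral.norm_integral_le_of_norm_le (μ := volume) hT
    (f := fun t => fderiv ℝ H (x + t • v) v)
    (g := fun t => ‖v‖ * ‖fderiv ℝ H (x + t • v)‖)
    (Eventually.of_forall fun t _ => by
      rw [mul_comm]; exact ContinuousLinearMap.le_opNorm _ _) (hc3.intervalIntegrable _ _)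
  rw [intervalIntegral.integral_const_mul] at h4
  exact h4

theorem vert_le {O D : Set E} {ν : E} (hν : ‖ν‖ = 1) {T : ℝ} (hT : 0 ≤ T)
    (hO : MeasurableSet O) (hOb : Bornology.IsBounded O) (hD : MeasurableSet D)
    (h : ∀ y ∈ D, ∀ t ∈ Icc 0 T, y + t • ν ∈ O) {m : ℝ} (hm : 0 < m) (hmD : m ≤ volume.real D)
    {H : E → ℝ} (hH : ContDiff ℝ 1 H) :
    |(⨍ y in D, H y) - ⨍ y in D, H (y + T • ν)| ≤ T / m * ∫ x in O, ‖fderiv ℝ H x‖ := by
  have hDO : D ⊆ O := fun y hy => by simpa using h y hy 0 ⟨le_rfl, hT⟩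
  have hDb : Bornology.IsBounded D := hOb.subset hDO
  have hDf : volume D < ⊤ := hDb.measure_lt_top
  have : IsFiniteMeasure (volume.restrict D) := ⟨by simpa using hDf⟩
  have hc : Continuous fun x => ‖fderiv ℝ H x‖ := (hH.continuous_fderiv (by norm_num)).norm
  have hgi : IntegrableOn (fun x => ‖fderiv ℝ H x‖) O := integrableOn_of_cont hOb hc
  have hJ : 0 ≤ ∫ x in O, ‖fderiv ℝ H x‖ := integral_nonneg fun x => norm_nonneg _
  obtain ⟨M, hM⟩ := bdd_of_cont hOb hc
  have hHc : Continuous H := hH.continuous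
  have hi1 : IntegrableOn H D := integrableOn_of_cont hDb hHc
  have hi2 : IntegrableOn (fun y => H (y + T • ν)) D :=
    integrableOn_of_cont hDb (hHc.comp (by fun_prop))
  set μ := volume.restrict D with hμ
  set τ : Measure ℝ := volume.restrict (Ioc (0 : ℝ) T) with hτ
  have hcont : Continuous fun p : E × ℝ => ‖fderiv ℝ H (p.1 + p.2 • ν)‖ :=
    hc.comp (by fun_prop)
  have hint : Integrable (fun p : E × ℝ => ‖fderiv ℝ H (p.1 + p.2 • ν)‖) (μ.prod τ) := by
    refine Integrable.of_bound hcont.aestronglyMeasurable M ?_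
    rw [hμ, hτ, Measure.prod_restrict]
    refine (ae_restrict_iff' (hD.prod measurableSet_Ioc)).2 (Eventually.of_forall fun p hp => ?_)
    exact hM _ (h _ hp.1 _ ⟨hp.2.1.le, hp.2.2⟩)
  have key : ∫ y in D, |H (y + T • ν) - H y| ≤ T * ∫ x in O, ‖fderiv ℝ H x‖ := by
    calc ∫ y in D, |H (y + T • ν) - H y|
        ≤ ∫ y, ∫ t, ‖fderiv ℝ H (y + t • ν)‖ ∂τ ∂μ := by
          refine integral_mono (hi2.sub hi1).norm hint.integral_prod_left fun y => ?_
          have := ftc_le hH y ν hT
          rw [hν, one_mul, intervalIntegral.integral_of_le hT] at this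
          exact this
      _ = ∫ t, ∫ y, ‖fderiv ℝ H (y + t • ν)‖ ∂μ ∂τ := integral_integral_swap hint
      _ ≤ ∫ _t, (∫ x in O, ‖fderiv ℝ H x‖) ∂τ := by
          refine setIntegral_mono_on hint.integral_prod_right (integrable_const _)
            measurableSet_Ioc ?_
          intro t ht
          have := affine_le hO hD (φ := fun x => ‖fderiv ℝ H x‖) (fun x => norm_nonneg _) hgi
            one_pos (t • ν) (fun y hy => by simpa using h y hy t ⟨ht.1.le, ht.2⟩)
          simpa using this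
      _ = T * ∫ x in O, ‖fderiv ℝ H x‖ := by
          rw [hτ, setIntegral_const, smul_eq_mul]; simp [hT]
  have hv : 0 < volume.real D := lt_of_lt_of_le hm hmD
  rw [setAverage_eq, setAverage_eq, ← smul_sub, ← integral_sub hi1 hi2, smul_eq_mul, abs_mul,
    abs_of_pos (inv_pos.2 hv)]
  have h5 : |∫ y in D, (H y - H (y + T • ν))| ≤ T * ∫ x in O, ‖fderiv ℝ H x‖ := by
    refine le_trans ?_ key
    rw [← Real.norm_eq_abs]
    refine (norm_integral_le_integral_norm _).trans (le_of_eq ?_)
    congr 1; ext y; rw [Real.norm_eq_abs, abs_sub_comm]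
  have h6 : (volume.real D)⁻¹ ≤ m⁻¹ := inv_anti₀ hm hmD
  calc (volume.real D)⁻¹ * |∫ y in D, (H y - H (y + T • ν))|
      ≤ m⁻¹ * (T * ∫ x in O, ‖fderiv ℝ H x‖) := by gcongr
    _ = _ := by ring

theorem horiz_le {K D₁ D₂ : Set E} {ν : E} {T R : ℝ} (hK : Convex ℝ K)
    (hKm : MeasurableSet K) (hKb : Bornology.IsBounded K)
    (hKd : ∀ y ∈ K, ∀ y' ∈ K, ‖y - y'‖ ≤ R)
    (hD₁ : MeasurableSet D₁) (hD₂ : MeasurableSet D₂)
    (hK₁ : ∀ y ∈ D₁, y + T • ν ∈ K) (hK₂ : ∀ y ∈ D₂, y + T • ν ∈ K) {m : ℝ} (hm : 0 < m)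
    (hm₁ : m ≤ volume.real D₁) (hm₂ : m ≤ volume.real D₂) (hf₁ : volume D₁ < ⊤)
    (hf₂ : volume D₂ < ⊤) {H : E → ℝ} (hH : ContDiff ℝ 1 H) :
    |(⨍ y in D₁, H (y + T • ν)) - ⨍ y in D₂, H (y + T • ν)|
      ≤ 8 * volume.real K * R / m ^ 2 * ∫ x in K, ‖fderiv ℝ H x‖ := by
  have hv₁ : 0 < volume.real D₁ := lt_of_lt_of_le hm hm₁
  have hv₂ : 0 < volume.real D₂ := lt_of_lt_of_le hm hm₂
  have hR : 0 ≤ R := by
    have : D₁.Nonempty := by
      by_contra hne
      rw [not_nonempty_iff_eq_empty] at hne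
      rw [hne] at hv₁; simp at hv₁
    obtain ⟨y, hy⟩ := this
    simpa using hKd _ (hK₁ y hy) _ (hK₁ y hy)
  have hKf : volume K < ⊤ := hKb.measure_lt_top
  have : IsFiniteMeasure (volume.restrict K) := ⟨by simpa using hKf⟩
  have : IsFiniteMeasure (volume.restrict D₁) := ⟨by simpa using hf₁⟩
  have : IsFiniteMeasure (volume.restrict D₂) := ⟨by simpa using hf₂⟩
  have hc : Continuous fun x => ‖fderiv ℝ H x‖ := (hH.continuous_fderiv (by norm_num)).norm
  have hHc : Continuous H := hH.continuous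
  set g : E → ℝ := fun x => ‖fderiv ℝ H x‖ with hg
  have hg0 : ∀ x, 0 ≤ g x := fun x => norm_nonneg _
  have hJ : 0 ≤ ∫ x in K, g x := integral_nonneg fun x => norm_nonneg _
  obtain ⟨M, hM⟩ := bdd_of_cont hKb hc
  obtain ⟨G, hG⟩ : ∃ G : E → E → ℝ, G = fun y y' => ∫ t in (0 : ℝ)..1, g (y' + t • (y - y')) :=
    ⟨_, rfl⟩
  have hG' : ∀ y y', G y y' = ∫ t in (0 : ℝ)..1, g (y' + t • (y - y')) := fun y y' => by rw [hG]
  have hGc : Continuous fun p : E × E => G p.1 p.2 := by
    have : Continuous (Function.uncurry fun (p : E × E) (t : ℝ) =>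
        g (p.2 + t • (p.1 - p.2))) := hc.comp (by fun_prop)
    have h2 := intervalIntegral.continuous_parametric_intervalIntegral_of_continuous' (μ := volume)
      this 0 1
    simp only [hG']
    exact h2
  have hGc2 : ∀ {X : Type} [TopologicalSpace X] (a b : X → E), Continuous a → Continuous b →
      Continuous fun y => G (a y) (b y) := by
    intro X _ a b ha hb
    exact hGc.comp (ha.prodMk hb)
  have hG0 : ∀ y y', 0 ≤ G y y' := fun y y' => by
    rw [hG']
    exact intervalIntegral.integral_nonneg zero_le_one fun t _ => hg0 _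
  have hin : ∀ y ∈ K, ∀ y' ∈ K, ∀ t ∈ Icc (0 : ℝ) 1, y' + t • (y - y') ∈ K := by
    intro y hy y' hy' t ht
    have := hK hy' hy (sub_nonneg.2 ht.2) ht.1 (by ring)
    convert this using 1
    rw [sub_smul, one_smul, smul_sub]; abel
  have hGM : ∀ y ∈ K, ∀ y' ∈ K, ‖G y y'‖ ≤ M := by
    intro y hy y' hy'
    have := intervalIntegral.norm_integral_le_of_norm_le_const (a := (0 : ℝ)) (b := 1) (C := M)
      (f := fun t => g (y' + t • (y - y'))) (fun t ht => by
        rw [uIoc_of_le zero_le_one] at ht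
        exact hM _ (hin y hy y' hy' t ⟨ht.1.le, ht.2⟩))
    rw [hG']
    simpa using this
  have hGi : Integrable (fun p : E × E => G p.1 p.2)
      ((volume.restrict K).prod (volume.restrict K)) := by
    refine Integrable.of_bound hGc.aestronglyMeasurable M ?_
    rw [Measure.prod_restrict]
    refine (ae_restrict_iff' (hKm.prod hKm)).2 (Eventually.of_forall fun p hp => ?_)
    exact hGM _ hp.1 _ hp.2
  have hGi1 : ∀ y ∈ K, IntegrableOn (fun y' => G y y') K := by
    intro y hy
    have hc3 : Continuous fun y' : E => G y y' := hGc2 _ _ continuous_const continuous_id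
    refine Integrable.of_bound hc3.aestronglyMeasurable M ?_
    exact (ae_restrict_iff' hKm).2 (Eventually.of_forall fun y' hy' => hGM _ hy _ hy')
  have hpt : ∀ y y', |H (y + T • ν) - H (y' + T • ν)| ≤ ‖y - y'‖ * G (y + T • ν) (y' + T • ν) := by
    intro y y'
    have := ftc_le hH (y' + T • ν) (y - y') zero_le_one
    simp only [one_smul] at this
    have e1 : y' + T • ν + (y - y') = y + T • ν := by abel
    have e2 : (y + T • ν) - (y' + T • ν) = y - y' := by abel
    rw [e1] at this
    rw [hG']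
    simp only [hg, e2]
    exact this
  have hb₁ : ∀ y ∈ D₁, ∫ y' in D₂, |H (y + T • ν) - H (y' + T • ν)|
      ≤ R * ∫ y' in K, G (y + T • ν) y' := by
    intro y hy
    have hy1 := hK₁ y hy
    have h1 : ∫ y' in D₂, G (y + T • ν) (y' + T • ν) ≤ ∫ y' in K, G (y + T • ν) y' := by
      have := affine_le hKm hD₂ (φ := fun y' => G (y + T • ν) y') (fun x => hG0 _ _)
        (hGi1 _ hy1) one_pos (T • ν) (fun y' hy' => by simpa using hK₂ y' hy')
      simpa using this
    have hcD : Continuous fun y' => G (y + T • ν) (y' + T • ν) :=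
      hGc2 _ _ (by fun_prop) (by fun_prop)
    have hiD : IntegrableOn (fun y' => G (y + T • ν) (y' + T • ν)) D₂ := by
      refine Integrable.of_bound hcD.aestronglyMeasurable M ?_
      exact (ae_restrict_iff' hD₂).2 (Eventually.of_forall fun y' hy' => hGM _ hy1 _ (hK₂ y' hy'))
    calc ∫ y' in D₂, |H (y + T • ν) - H (y' + T • ν)|
        ≤ ∫ y' in D₂, R * G (y + T • ν) (y' + T • ν) := by
          refine integral_mono_of_nonneg (Eventually.of_forall fun y' => abs_nonneg _)
            (hiD.const_mul R) ?_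
          refine (ae_restrict_iff' hD₂).2 (Eventually.of_forall fun y' hy' => ?_)
          refine (hpt y y').trans ?_
          have : ‖y - y'‖ ≤ R := by
            have := hKd _ hy1 _ (hK₂ y' hy')
            rwa [add_sub_add_right_eq_sub] at this
          exact mul_le_mul_of_nonneg_right this (hG0 _ _)
      _ = R * ∫ y' in D₂, G (y + T • ν) (y' + T • ν) := integral_const_mul _ _
      _ ≤ _ := by gcongr
  have hφi : IntegrableOn (fun y => ∫ y' in K, G y y') K := hGi.integral_prod_left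
  have hφ0 : ∀ y, 0 ≤ ∫ y' in K, G y y' := fun y => integral_nonneg fun y' => hG0 _ _
  have hφc : ∀ y ∈ K, ‖∫ y' in K, G y y'‖ ≤ M * volume.real K := by
    intro y hy
    have := norm_setIntegral_le_of_norm_le_const (f := fun y' => G y y') hKf (C := M)
      (fun y' hy' => hGM _ hy _ hy')
    exact this
  have hφD : IntegrableOn (fun y => ∫ y' in K, G (y + T • ν) y') D₁ := by
    refine Integrable.of_bound ?_ (M * volume.real K) ?_
    · have : StronglyMeasurable fun y : E => ∫ y' in K, G (y + T • ν) y' := by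
        have h2 : Continuous fun p : E × E => G (p.1 + T • ν) p.2 :=
          hGc2 _ _ (by fun_prop) (by fun_prop)
        have h3 : StronglyMeasurable fun p : E × E => G (p.1 + T • ν) p.2 :=
          h2.stronglyMeasurable
        exact h3.integral_prod_right (ν := volume.restrict K)
      exact this.aestronglyMeasurable
    · exact (ae_restrict_iff' hD₁).2 (Eventually.of_forall fun y hy => hφc _ (hK₁ y hy))
  have hdbl : ∫ y in D₁, ∫ y' in D₂, |H (y + T • ν) - H (y' + T • ν)|
      ≤ R * (8 * volume.real K * ∫ x in K, g x) := by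
    calc ∫ y in D₁, ∫ y' in D₂, |H (y + T • ν) - H (y' + T • ν)|
        ≤ ∫ y in D₁, R * ∫ y' in K, G (y + T • ν) y' := by
          refine integral_mono_of_nonneg (Eventually.of_forall fun y => integral_nonneg fun y' =>
            abs_nonneg _) (hφD.const_mul R) ?_
          exact (ae_restrict_iff' hD₁).2 (Eventually.of_forall fun y hy => hb₁ y hy)
      _ = R * ∫ y in D₁, ∫ y' in K, G (y + T • ν) y' := integral_const_mul _ _
      _ ≤ R * ∫ y in K, ∫ y' in K, G y y' := by
          gcongr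
          have := affine_le hKm hD₁ (φ := fun y => ∫ y' in K, G y y') hφ0 hφi one_pos (T • ν)
            (fun y hy => by simpa using hK₁ y hy)
          simpa using this
      _ ≤ _ := by
          gcongr
          have := seg_le hK hKm hKb hc hg0
          simp only [hG']
          exact this
  set h : E → ℝ := fun y => H (y + T • ν) with hh
  have hhc : Continuous h := hHc.comp (by fun_prop)
  obtain ⟨N, hN⟩ := bdd_of_cont hKb hHc
  have hi1 : IntegrableOn h D₁ := by
    refine Integrable.of_bound hhc.aestronglyMeasurable N ?_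
    exact (ae_restrict_iff' hD₁).2 (Eventually.of_forall fun y hy => hN _ (hK₁ y hy))
  have hi2 : IntegrableOn h D₂ := by
    refine Integrable.of_bound hhc.aestronglyMeasurable N ?_
    exact (ae_restrict_iff' hD₂).2 (Eventually.of_forall fun y hy => hN _ (hK₂ y hy))
  have e : ∫ y in D₁, ∫ y' in D₂, (h y - h y')
      = volume.real D₂ * (∫ y in D₁, h y) - volume.real D₁ * ∫ y in D₂, h y := by
    have : ∀ y, ∫ y' in D₂, (h y - h y') = volume.real D₂ * h y - ∫ y' in D₂, h y' := by
      intro y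
      rw [integral_sub (integrable_const _) hi2, setIntegral_const, smul_eq_mul]
    simp only [this]
    rw [integral_sub (hi1.const_mul _) (integrable_const _), setIntegral_const, smul_eq_mul,
      integral_const_mul]
  have hle : |∫ y in D₁, ∫ y' in D₂, (h y - h y')| ≤ R * (8 * volume.real K * ∫ x in K, g x) := by
    refine le_trans ?_ hdbl
    rw [← Real.norm_eq_abs]
    refine (norm_integral_le_integral_norm _).trans ?_
    refine integral_mono_of_nonneg (Eventually.of_forall fun y => norm_nonneg _) ?_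
      (Eventually.of_forall fun y => ?_)
    · have h2 : Continuous fun p : E × E => |H (p.1 + T • ν) - H (p.2 + T • ν)| := by
        have ha : Continuous fun p : E × E => H (p.1 + T • ν) := hHc.comp (by fun_prop)
        have hb : Continuous fun p : E × E => H (p.2 + T • ν) := hHc.comp (by fun_prop)
        exact (ha.sub hb).abs
      have h3 : Integrable (fun p : E × E => |H (p.1 + T • ν) - H (p.2 + T • ν)|)
          ((volume.restrict D₁).prod (volume.restrict D₂)) := by
        refine Integrable.of_bound h2.aestronglyMeasurable (N + N) ?_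
        rw [Measure.prod_restrict]
        refine (ae_restrict_iff' (hD₁.prod hD₂)).2 (Eventually.of_forall fun p hp => ?_)
        rw [Real.norm_eq_abs, abs_abs]
        refine (abs_sub _ _).trans ?_
        exact add_le_add (hN _ (hK₁ _ hp.1)) (hN _ (hK₂ _ hp.2))
      exact h3.integral_prod_left
    · exact norm_integral_le_integral_norm _
  rw [setAverage_eq, setAverage_eq, smul_eq_mul, smul_eq_mul]
  have e2 : (volume.real D₁)⁻¹ * (∫ y in D₁, h y) - (volume.real D₂)⁻¹ * ∫ y in D₂, h y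
      = ((volume.real D₁)⁻¹ * (volume.real D₂)⁻¹) * ∫ y in D₁, ∫ y' in D₂, (h y - h y') := by
    rw [e]; field_simp
  rw [e2, abs_mul, abs_of_pos (by positivity)]
  have h6 : (volume.real D₁)⁻¹ ≤ m⁻¹ := inv_anti₀ hm hm₁
  have h7 : (volume.real D₂)⁻¹ ≤ m⁻¹ := inv_anti₀ hm hm₂
  calc (volume.real D₁)⁻¹ * (volume.real D₂)⁻¹ * |∫ y in D₁, ∫ y' in D₂, (h y - h y')|
      ≤ m⁻¹ * m⁻¹ * (R * (8 * volume.real K * ∫ x in K, g x)) := by
        have : 0 ≤ volume.real K := measureReal_nonneg
        gcongr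
    _ = _ := by field_simp

theorem osc_le {O K D₁ D₂ : Set E} {ν : E} (hν : ‖ν‖ = 1) {T R : ℝ} (hT : 0 ≤ T)
    (hO : MeasurableSet O) (hOb : Bornology.IsBounded O) (hK : Convex ℝ K)
    (hKm : MeasurableSet K) (hKO : K ⊆ O) (hKd : ∀ y ∈ K, ∀ y' ∈ K, ‖y - y'‖ ≤ R)
    (hD₁ : MeasurableSet D₁) (hD₂ : MeasurableSet D₂)
    (h₁ : ∀ y ∈ D₁, ∀ t ∈ Icc 0 T, y + t • ν ∈ O) (h₂ : ∀ y ∈ D₂, ∀ t ∈ Icc 0 T, y + t • ν ∈ O)
    (hK₁ : ∀ y ∈ D₁, y + T • ν ∈ K) (hK₂ : ∀ y ∈ D₂, y + T • ν ∈ K) {m : ℝ} (hm : 0 < m)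
    (hm₁ : m ≤ volume.real D₁) (hm₂ : m ≤ volume.real D₂) {H : E → ℝ} (hH : ContDiff ℝ 1 H) :
    |(⨍ y in D₁, H y) - ⨍ y in D₂, H y|
      ≤ (2 * T / m + 8 * volume.real K * R / m ^ 2) * ∫ x in O, ‖gradient H x‖ := by
  have hgr : ∀ x, ‖gradient H x‖ = ‖fderiv ℝ H x‖ := by
    intro x; simp [gradient]
  simp only [hgr]
  have hD1O : D₁ ⊆ O := fun y hy => by simpa using h₁ y hy 0 ⟨le_rfl, hT⟩
  have hD2O : D₂ ⊆ O := fun y hy => by simpa using h₂ y hy 0 ⟨le_rfl, hT⟩
  have hf₁ : volume D₁ < ⊤ := (hOb.subset hD1O).measure_lt_top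
  have hf₂ : volume D₂ < ⊤ := (hOb.subset hD2O).measure_lt_top
  have hKb : Bornology.IsBounded K := hOb.subset hKO
  have hR : 0 ≤ R := by
    have : D₁.Nonempty := by
      by_contra hne
      rw [not_nonempty_iff_eq_empty] at hne
      rw [hne] at hm₁; simp at hm₁; linarith
    obtain ⟨y, hy⟩ := this
    simpa using hKd _ (hK₁ y hy) _ (hK₁ y hy)
  have hc : Continuous fun x => ‖fderiv ℝ H x‖ := (hH.continuous_fderiv (by norm_num)).norm
  have hgi : IntegrableOn (fun x => ‖fderiv ℝ H x‖) O := integrableOn_of_cont hOb hc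
  have hKJ : ∫ x in K, ‖fderiv ℝ H x‖ ≤ ∫ x in O, ‖fderiv ℝ H x‖ :=
    setIntegral_mono_set hgi (Eventually.of_forall fun x => norm_nonneg _) hKO.eventuallyLE
  have a1 := vert_le hν hT hO hOb hD₁ h₁ hm hm₁ hH
  have a2 := vert_le hν hT hO hOb hD₂ h₂ hm hm₂ hH
  have a3 := horiz_le (ν := ν) (T := T) hK hKm hKb hKd hD₁ hD₂ hK₁ hK₂ hm hm₁ hm₂ hf₁ hf₂ hH
  have hKr : 0 ≤ volume.real K := measureReal_nonneg
  have a4 : 8 * volume.real K * R / m ^ 2 * ∫ x in K, ‖fderiv ℝ H x‖
      ≤ 8 * volume.real K * R / m ^ 2 * ∫ x in O, ‖fderiv ℝ H x‖ := by gcongr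
  have a5 : (2 * T / m + 8 * volume.real K * R / m ^ 2) * ∫ x in O, ‖fderiv ℝ H x‖
      = T / m * (∫ x in O, ‖fderiv ℝ H x‖) + T / m * (∫ x in O, ‖fderiv ℝ H x‖)
        + 8 * volume.real K * R / m ^ 2 * ∫ x in O, ‖fderiv ℝ H x‖ := by ring
  rw [a5]
  rw [abs_le] at a1 a2 a3 ⊢
  constructor <;> linarith [a1.1, a1.2, a2.1, a2.2, a3.1, a3.2]

end Pool.Agent.Helper37.Curl
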